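import Pool.Agent.helper82.CH.SpecA

/-! # Row ch:MCH (MP_2e0e07_nt): the choice of `m` for the crossing -/

set_option autoImplicit false

open NumberField Complex Pool.Agent.UN

namespace Pool.Agent.CH

/-- the product of the primes up to `B` -/
def MCH_L (B : ℕ) : ℕ := ∏ l ∈ (Finset.range (B + 1)).filter Nat.Prime, l

theorem MCH_L_pos (B : ℕ) : 0 < MCH_L B :=
  Finset.prod_pos fun l hl => (Finset.mem_filter.1 hl).2.pos

theorem MCH_dvd {B l : ℕ} (hl : l.Prime) (hB : l ≤ B) : l ∣ MCH_L B :=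
  Finset.dvd_prod_of_mem (fun l => l) (Finset.mem_filter.2 ⟨Finset.mem_range.2 (by omega), hl⟩)

/-- lifting the exponent -/
theorem MCH_lte {l L a N : ℕ} (hl : l.Prime) (hL : l ∣ L) (hL0 : 0 < L)
    (h : (l : ℤ) ^ a ∣ (1 + 4 * (L : ℤ)) ^ N - 1) : l ^ (a - 4 * L) ∣ N := by
  have hx : ¬ (l : ℤ) ∣ 1 + 4 * (L : ℤ) := by
    intro h1
    have h2 : (l : ℤ) ∣ 4 * (L : ℤ) := Dvd.dvd.mul_left (by exact_mod_cast hL) 4
    have h3 : (l : ℤ) ∣ 1 := (dvd_add_left h2).1 h1
    have h4 : l ∣ 1 := by exact_mod_cast h3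
    exact hl.one_lt.ne' (Nat.dvd_one.1 h4)
  have hv : emultiplicity (l : ℤ) (4 * (L : ℤ)) ≤ ((4 * L : ℕ) : ℕ∞) := by
    rw [show (4 * (L : ℤ)) = ((4 * L : ℕ) : ℤ) by push_cast; ring, Int.natCast_emultiplicity]
    by_contra hcon
    push Not at hcon
    have h1 : l ^ (4 * L) ∣ 4 * L := pow_dvd_of_le_emultiplicity hcon.le
    have h2 := Nat.le_of_dvd (by omega) h1
    have h3 := Nat.lt_pow_self hl.one_lt (n := 4 * L)
    omega
  have key : emultiplicity (l : ℤ) ((1 + 4 * (L : ℤ)) ^ N - 1) ≤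
      ((4 * L : ℕ) : ℕ∞) + emultiplicity l N := by
    rcases hl.eq_two_or_odd' with h2 | hodd
    · subst h2
      have h3 := Int.two_pow_sub_pow' (x := 1 + 4 * (L : ℤ)) (y := 1) N (by
        rw [add_sub_cancel_left]
        exact Dvd.intro _ rfl) (by exact_mod_cast hx)
      rw [one_pow, add_sub_cancel_left] at h3
      have h4 : emultiplicity (2 : ℤ) (N : ℤ) = emultiplicity 2 N := by
        have := Int.natCast_emultiplicity 2 N
        exact_mod_cast this
      have h5 : emultiplicity ((2 : ℕ) : ℤ) ((1 + 4 * (L : ℤ)) ^ N - 1) =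
          emultiplicity (2 : ℤ) (4 * (L : ℤ)) + emultiplicity 2 N := by
        rw [← h4]
        exact_mod_cast h3
      rw [h5]
      exact add_le_add (by exact_mod_cast hv) le_rfl
    · have : Fact l.Prime := ⟨hl⟩
      have h3 := Int.emultiplicity_pow_sub_pow hl hodd (x := 1 + 4 * (L : ℤ)) (y := 1) (by
        rw [add_sub_cancel_left]
        exact Dvd.dvd.mul_left (by exact_mod_cast hL) 4) hx N
      rw [one_pow, add_sub_cancel_left] at h3
      rw [h3]
      exact add_le_add hv le_rfl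
  have h1 : (a : ℕ∞) ≤ ((4 * L : ℕ) : ℕ∞) + emultiplicity l N :=
    (le_emultiplicity_of_pow_dvd h).trans key
  apply pow_dvd_of_le_emultiplicity
  have h2 : ((a - 4 * L : ℕ) : ℕ∞) = (a : ℕ∞) - ((4 * L : ℕ) : ℕ∞) := by
    exact_mod_cast rfl
  rw [h2]
  exact tsub_le_iff_left.2 h1

/-- if `l ^ B` does not divide the order of `x` -/
theorem MCH_bad {G : Type} [Group G] [Finite G] (l B : ℕ) (hl : l.Prime) (x : G) (h : ¬ l ^ B ∣ orderOf x) :
    x ^ (l ^ (B - 1) * (Nat.card G / l ^ (Nat.card G).factorization l)) = 1 := by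
  apply orderOf_dvd_iff_pow_eq_one.1
  have h0 : orderOf x ≠ 0 := (orderOf_pos x).ne'
  rw [← Nat.ordProj_mul_ordCompl_eq_self (orderOf x) l]
  apply Nat.mul_dvd_mul
  · apply pow_dvd_pow
    rw [hl.pow_dvd_iff_le_factorization h0] at h
    omega
  · exact Nat.ordCompl_dvd_ordCompl_of_dvd (orderOf_dvd_natCard x) l

theorem MCH : MCH_stmt := by
  intro B
  set L := MCH_L B with hL
  have hL0 : 0 < L := MCH_L_pos B
  set k := 4 * L + (B + B.factorial * B) with hk
  set m := L ^ k with hm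
  have hm0 : 0 < m := Nat.pow_pos hL0
  have : NeZero m := ⟨hm0.ne'⟩
  refine ⟨m, hm0, ?_⟩
  intro H hH hH0 u n hn0 hnB
  have hcop : Nat.Coprime (1 + 4 * L) m := by
    apply Nat.Coprime.pow_right
    rw [Nat.coprime_add_mul_right_left]
    exact Nat.coprime_one_left L
  set w : (ZMod m)ˣ := ZMod.unitOfCoprime (1 + 4 * L) hcop with hw
  have hwH : w ^ B.factorial ∈ H := by
    obtain ⟨c, hc⟩ := Nat.dvd_factorial (Nat.pos_of_ne_zero hH0) hH
    rw [hc, pow_mul]
    exact Subgroup.pow_mem _ (Subgroup.pow_index_mem H w) c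
  -- two bad exponents
  have two : ∀ l : ℕ, l.Prime → l ≤ B → ∀ j₁ j₂ : ℕ, j₁ < j₂ → j₂ ≤ B →
      ¬ l ^ B ∣ orderOf (u * (w ^ B.factorial) ^ j₁) → ¬ l ^ B ∣ orderOf (u * (w ^ B.factorial) ^ j₂) → False := by
    intro l hl hlB j₁ j₂ hj hjB h1 h2
    have hc0 : Nat.card (ZMod m)ˣ ≠ 0 := Nat.card_pos.ne'
    set t := Nat.card (ZMod m)ˣ / l ^ (Nat.card (ZMod m)ˣ).factorization l with ht
    have b1 := MCH_bad l B hl _ h1
    have b2 := MCH_bad l B hl _ h2
    rw [← ht] at b1 b2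
    have e1 : u * (w ^ B.factorial) ^ j₂ = (u * (w ^ B.factorial) ^ j₁) * (w ^ B.factorial) ^ (j₂ - j₁) := by
      rw [mul_assoc, ← pow_add, Nat.add_sub_cancel' hj.le]
    rw [e1, mul_pow, b1, one_mul, ← pow_mul, ← pow_mul] at b2
    set N := B.factorial * (j₂ - j₁) * (l ^ (B - 1) * t) with hN
    have b3 : (((1 + 4 * (L : ℤ)) ^ N - 1 : ℤ) : ZMod m) = 0 := by
      have b4 := congrArg Units.val b2
      rw [Units.val_pow_eq_pow_val, hw, ZMod.coe_unitOfCoprime, Units.val_one] at b4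
      push_cast at b4 ⊢
      rw [hN, mul_assoc, b4, sub_self]
    have b5 : (m : ℤ) ∣ (1 + 4 * (L : ℤ)) ^ N - 1 := (ZMod.intCast_zmod_eq_zero_iff_dvd _ m).1 b3
    have b6 : (l : ℤ) ^ k ∣ (1 + 4 * (L : ℤ)) ^ N - 1 := by
      refine dvd_trans ?_ b5
      rw [hm]
      push_cast
      exact pow_dvd_pow_of_dvd (by exact_mod_cast MCH_dvd hl hlB) k
    have b7 := MCH_lte hl (MCH_dvd hl hlB) hL0 b6
    have b8 : k - 4 * L = B + B.factorial * B := by omega
    rw [b8, hN, ← mul_assoc] at b7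
    have b9 : ¬ l ∣ t := Nat.not_dvd_ordCompl hl hc0
    have b10 : Nat.Coprime (l ^ (B + B.factorial * B)) t :=
      Nat.Coprime.pow_left _ ((Nat.Prime.coprime_iff_not_dvd hl).2 b9)
    have b11 := b10.dvd_of_dvd_mul_right b7
    have hf := Nat.factorial_pos B
    have b12 := Nat.le_of_dvd (Nat.mul_pos (Nat.mul_pos hf (by omega)) (Nat.pow_pos hl.pos)) b11
    have b13 : B.factorial * (j₂ - j₁) * l ^ (B - 1) ≤ B.factorial * B * l ^ B :=
      Nat.mul_le_mul (Nat.mul_le_mul_left _ (by omega)) (Nat.pow_le_pow_right hl.pos (by omega))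
    have b14 : B.factorial * B < l ^ (B.factorial * B) := Nat.lt_pow_self hl.one_lt
    have b15 : B.factorial * B * l ^ B < l ^ (B + B.factorial * B) := by
      rw [pow_add, mul_comm (l ^ B)]
      exact Nat.mul_lt_mul_of_pos_right b14 (Nat.pow_pos hl.pos)
    omega
  -- a good exponent
  obtain ⟨j, hjB, hj⟩ : ∃ j : ℕ, j ≤ B ∧ ∀ l : ℕ, l.Prime → l ≤ B → l ^ B ∣ orderOf (u * (w ^ B.factorial) ^ j) := by
    by_contra hcon
    push Not at hcon
    have hc2 : ∀ j : ℕ, ∃ l : ℕ, j ≤ B → l.Prime ∧ l ≤ B ∧ ¬ l ^ B ∣ orderOf (u * (w ^ B.factorial) ^ j) := by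
      intro j
      by_cases h : j ≤ B
      · obtain ⟨l, h1, h2, h3⟩ := hcon j h
        exact ⟨l, fun _ => ⟨h1, h2, h3⟩⟩
      · exact ⟨0, fun h' => absurd h' h⟩
    choose φ hφ using hc2
    obtain ⟨x, hx, y, hy, hxy, he⟩ := Finset.exists_ne_map_eq_of_card_lt_of_maps_to
      (s := Finset.range (B + 1)) (t := Finset.Icc 1 B) (f := φ) (by simp) (by
        intro j hj
        have h1 := hφ j (by have := Finset.mem_range.1 (Finset.mem_coe.1 hj); omega)
        rw [Finset.mem_coe, Finset.mem_Icc]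
        exact ⟨h1.1.one_lt.le, h1.2.1⟩)
    have hx' : x ≤ B := by have := Finset.mem_range.1 hx; omega
    have hy' : y ≤ B := by have := Finset.mem_range.1 hy; omega
    have h1 := hφ x hx'
    have h2 := hφ y hy'
    rcases lt_or_gt_of_ne hxy with h3 | h3
    · refine two (φ x) h1.1 h1.2.1 x y h3 hy' h1.2.2 ?_
      rw [he]
      exact h2.2.2
    · refine two (φ x) h1.1 h1.2.1 y x h3 hx' ?_ h1.2.2
      rw [he]
      exact h2.2.2
  refine ⟨(w ^ B.factorial) ^ j, Subgroup.pow_mem _ hwH j, ?_⟩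
  rw [Nat.dvd_iff_prime_pow_dvd_dvd]
  intro p i hp hpi
  rcases Nat.eq_zero_or_pos i with h0 | h0
  · rw [h0, pow_zero]
    exact one_dvd _
  · have h1 : p ^ i ≤ B := (Nat.le_of_dvd hn0 hpi).trans hnB
    have h2 : p ≤ B := (Nat.le_self_pow h0.ne' p).trans h1
    have h3 : i ≤ B := (Nat.lt_pow_self hp.one_lt).le.trans h1
    exact (pow_dvd_pow p h3).trans (hj p hp h2)

end Pool.Agent.CH
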