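import Pool.Agent.helper82.CH.SpecA

/-! # Row ch:FRB (MP_2e0e07_nt): Frobenius elements of the crossed extension -/

set_option autoImplicit false

open NumberField Complex Pool.Agent.UN

namespace Pool.Agent.CH

/-- automorphisms over the fixed field are powers of `g` -/
theorem FRB_pow {K M : Type} [Field K] [NumberField K] [Field M] [NumberField M] [Algebra K M] [IsGalois K M]
    (g : M ≃ₐ[K] M) (h : M ≃ₐ[K] M) (hh : ∀ x ∈ IntermediateField.fixedField (Subgroup.zpowers g), h x = x) :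
    ∃ k : ℕ, h = g ^ k := by
  have : FiniteDimensional K M := Module.Finite.of_restrictScalars_finite ℚ K M
  have h1 : h ∈ IntermediateField.fixingSubgroup (IntermediateField.fixedField (Subgroup.zpowers g)) := by
    rw [IntermediateField.mem_fixingSubgroup_iff]
    exact hh
  rw [IntermediateField.fixingSubgroup_fixedField] at h1
  obtain ⟨k, hk⟩ := (mem_powers_iff_mem_zpowers.2 h1)
  exact ⟨k, hk.symm⟩

theorem FRB_adj {K M : Type} [Field K] [NumberField K] [Field M] [NumberField M] [Algebra K M] [IsGalois K M]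
    (g : M ≃ₐ[K] M) (z : M) (hg : ∀ k : ℕ, (g ^ k) z = z → g ^ k = 1) :
    Algebra.adjoin (IntermediateField.fixedField (Subgroup.zpowers g)) {z} = ⊤ := by
  have : FiniteDimensional K M := Module.Finite.of_restrictScalars_finite ℚ K M
  set F := IntermediateField.fixedField (Subgroup.zpowers g) with hF
  have h1 : IntermediateField.fixingSubgroup (IntermediateField.adjoin F {z}) = ⊥ := by
    rw [eq_bot_iff]
    intro h hh
    rw [IntermediateField.mem_fixingSubgroup_iff] at hh
    have h2 : h z = z := hh z (IntermediateField.mem_adjoin_simple_self F z)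
    obtain ⟨k, hk⟩ := FRB_pow g (h.restrictScalars K) (by
      intro x hx
      exact h.commutes ⟨x, hx⟩)
    have h3 : (g ^ k) z = z := by
      rw [← hk]
      exact h2
    have h4 := hg k h3
    rw [Subgroup.mem_bot]
    ext x
    have h5 : (h.restrictScalars K) x = x := by
      rw [hk, h4]
      rfl
    exact h5
  have h2 := IsGalois.fixedField_fixingSubgroup (IntermediateField.adjoin F {z})
  rw [h1, IntermediateField.fixedField_bot] at h2
  rw [← IntermediateField.adjoin_toSubalgebra, ← h2]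
  rfl

theorem FRB_card {K F : Type} [Field K] [NumberField K] [Field F] [NumberField F] [Algebra K F]
    (I : Ideal (𝓞 F)) (p : ℕ) (hp : p.Prime) (hI : Ideal.absNorm I = p) :
    Nat.card (𝓞 K ⧸ I.under (𝓞 K)) = p := by
  have hIp : I.IsPrime := Ideal.isPrime_of_irreducible_absNorm (by rw [hI]; exact hp)
  have hc : Nat.card (𝓞 F ⧸ I) = p := by
    rw [← hI, Ideal.absNorm_apply, Submodule.cardQuot_apply]
  have hfin : Finite (𝓞 F ⧸ I) := Nat.finite_of_card_ne_zero (by rw [hc]; exact hp.ne_zero)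
  have hinj : Function.Injective (algebraMap (𝓞 K ⧸ I.under (𝓞 K)) (𝓞 F ⧸ I)) :=
    Ideal.algebraMap_quotient_injective
  have hfin2 : Finite (𝓞 K ⧸ I.under (𝓞 K)) := Finite.of_injective _ hinj
  have hprime : (I.under (𝓞 K)).IsPrime := Ideal.IsPrime.under (𝓞 K) I
  have hd : Nat.card (𝓞 K ⧸ I.under (𝓞 K)) ∣ p := by
    rw [← hc]
    exact AddSubgroup.card_dvd_of_injective
      ((algebraMap (𝓞 K ⧸ I.under (𝓞 K)) (𝓞 F ⧸ I)).toAddMonoidHom) hinj
  rcases (Nat.dvd_prime hp).1 hd with h1 | h1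
  · exfalso
    have hnt : Nontrivial (𝓞 K ⧸ I.under (𝓞 K)) := Ideal.Quotient.nontrivial_iff.2 hprime.ne_top
    have := Finite.one_lt_card (α := 𝓞 K ⧸ I.under (𝓞 K))
    omega
  · exact h1

theorem FRB : FRB_stmt := by
  intro K L M _ _ _ _ _ _ _ _ _ _ _ _ m r z σ g hm hz hσ hgz hg hadj
  have hfd : FiniteDimensional K M := Module.Finite.of_restrictScalars_finite ℚ K M
  refine ⟨FRB_adj g z hg, ?_, ?_⟩
  · have h1 : g ∈ IntermediateField.fixingSubgroup (IntermediateField.fixedField (Subgroup.zpowers g)) := by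
      rw [IntermediateField.fixingSubgroup_fixedField]
      exact Subgroup.mem_zpowers g
    exact ⟨IntermediateField.fixingSubgroupEquiv _ ⟨g, h1⟩, fun x => rfl⟩
  · intro p I hp hpm hpr hI
    let F : IntermediateField K M := IntermediateField.fixedField (Subgroup.zpowers g)
    have hIp : I.IsPrime := Ideal.isPrime_of_irreducible_absNorm (by rw [hI]; exact hp)
    have hI0 : I ≠ ⊥ := by
      rintro rfl
      rw [Ideal.absNorm_bot] at hI
      exact hp.ne_zero hI.symm
    obtain ⟨⟨Q, hQp, hQl⟩⟩ := I.nonempty_primesOver (S := 𝓞 M)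
    have hIQ : Q.under (𝓞 F) = I := (Ideal.over_def Q I).symm
    have hQ0 : Q ≠ ⊥ := Ideal.ne_bot_of_liesOver_of_ne_bot hI0 Q
    have hfin : Finite (𝓞 M ⧸ Q) := Ideal.finiteQuotientOfFreeOfNeBot Q hQ0
    have hinv : Algebra.IsInvariant (𝓞 F) (𝓞 M) (M ≃ₐ[F] M) := IsGaloisGroup.isInvariant
    obtain ⟨τ, hτ⟩ := IsArithFrobAt.exists_of_isInvariant (𝓞 F) (M ≃ₐ[F] M) Q
    have hcard : Nat.card (𝓞 F ⧸ Q.under (𝓞 F)) = p := by
      rw [hIQ, ← hI, Ideal.absNorm_apply, Submodule.cardQuot_apply]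
    -- `p`, `m` and `Q`
    have hpQ : ((p : ℕ) : 𝓞 M) ∈ Q := by
      have h1 : ((p : ℕ) : 𝓞 F) ∈ I := by
        rw [← hI]
        exact Ideal.absNorm_mem I
      rw [← hIQ, Ideal.under_def, Ideal.mem_comap, map_natCast] at h1
      exact h1
    have hmQ : ((m : ℕ) : 𝓞 M) ∉ Q := by
      intro h1
      obtain ⟨a, b, hab⟩ := Nat.isCoprime_iff_coprime.2 ((Nat.Prime.coprime_iff_not_dvd hp).2 hpm)
      apply hQp.ne_top
      rw [Ideal.eq_top_iff_one]
      have h2 : (1 : 𝓞 M) = (a : 𝓞 M) * ((p : ℕ) : 𝓞 M) + (b : 𝓞 M) * ((m : ℕ) : 𝓞 M) := by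
        have h3 := congrArg (fun x : ℤ => (x : 𝓞 M)) hab
        push_cast at h3
        exact h3.symm
      rw [h2]
      exact Q.add_mem (Q.mul_mem_left _ hpQ) (Q.mul_mem_left _ h1)
    -- `τ z = g z`
    set zO : 𝓞 M := ⟨z, hz.isIntegral hm⟩ with hzO
    have hz1 : zO ^ m = 1 := by
      apply RingOfIntegers.ext
      show z ^ m = 1
      exact hz.pow_eq_one
    have h5 := hτ.apply_of_pow_eq_one hz1 hmQ
    rw [hcard] at h5
    have h6 : τ z = z ^ p := by
      have h7 := congrArg (fun x : 𝓞 M => (algebraMap (𝓞 M) M) x) h5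
      simp only [map_pow] at h7
      exact h7
    have h8 : z ^ p = z ^ r := pow_eq_pow_of_modEq hpr hz.pow_eq_one
    have h9 : τ z = g z := by rw [h6, h8, hgz]
    obtain ⟨j, hj⟩ := FRB_pow g (τ.restrictScalars K) (by
      intro x hx
      exact τ.commutes ⟨x, hx⟩)
    have h10 : g⁻¹ * τ.restrictScalars K ∈ Subgroup.zpowers g := by
      rw [hj]
      exact Subgroup.mul_mem _ (Subgroup.inv_mem _ (Subgroup.mem_zpowers g))
        (Subgroup.pow_mem _ (Subgroup.mem_zpowers g) j)
    obtain ⟨k, hk⟩ := mem_powers_iff_mem_zpowers.2 h10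
    have hk' : g ^ k = g⁻¹ * τ.restrictScalars K := hk
    have h11 : (g ^ k) z = z := by
      rw [hk', AlgEquiv.mul_apply]
      have h12 : (τ.restrictScalars K) z = g z := h9
      rw [h12]
      exact g.symm_apply_apply z
    have h13 : τ.restrictScalars K = g := by
      rw [hg k h11] at hk'
      exact (inv_mul_eq_one.1 hk'.symm).symm
    have h14 : ∀ x : M, τ x = g x := fun x => by
      have := congrArg (fun φ : M ≃ₐ[K] M => φ x) h13
      exact this
    -- the prime of `L`
    have hu : (Q.under (𝓞 L)).under (𝓞 K) = I.under (𝓞 K) := by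
      rw [Ideal.under_under, ← hIQ, Ideal.under_under]
    refine ⟨Q.under (𝓞 L), Ideal.IsPrime.under (𝓞 L) Q, ?_, ?_⟩
    · rw [hu, Ideal.absNorm_apply, Submodule.cardQuot_apply]
      exact FRB_card I p hp hI
    · intro x
      rw [hu, FRB_card I p hp hI, Ideal.under_def, Ideal.mem_comap, map_sub, map_pow]
      have h15 := hτ (algebraMap (𝓞 L) (𝓞 M) x)
      rw [hcard] at h15
      have h16 : algebraMap (𝓞 L) (𝓞 M) ((MulSemiringAction.toAlgHom (𝓞 K) (𝓞 L) σ) x) =
          (MulSemiringAction.toAlgHom (𝓞 F) (𝓞 M) τ) (algebraMap (𝓞 L) (𝓞 M) x) := by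
        apply RingOfIntegers.ext
        show algebraMap L M (σ (algebraMap (𝓞 L) L x)) = τ (algebraMap L M (algebraMap (𝓞 L) L x))
        rw [h14, hσ]
      rw [h16]
      exact h15

end Pool.Agent.CH
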