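import Pool.Agent.helper10.CH.SpecZ

/-! # Row chz:CZR (MP_2e0e07_nt): the value of `(s - 1) ζ_K(s)` at `1` -/

set_option autoImplicit false

open NumberField Complex

namespace Pool.Agent.UN

theorem CZR_bot (K : Type) [Field K] [NumberField K] : tc K ⊥ = 0 := by
  unfold tc
  rw [if_pos rfl]

theorem CZR_ne (K : Type) [Field K] [NumberField K] (a : Ideal (𝓞 K)) (ha : a ≠ ⊥) : tc K a = 1 := by
  unfold tc
  rw [if_neg ha]

theorem CZR_norm (K : Type) [Field K] [NumberField K] (a : Ideal (𝓞 K)) (s : ℂ) :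
    ‖tc K a * (Nm a : ℂ) ^ (-s)‖ = ‖tc K a‖ * Nm a ^ (-s.re) := by
  by_cases ha : a = ⊥
  · subst ha
    rw [CZR_bot]
    simp
  · have h1 : 0 < Nm a := by
      unfold Nm
      have h2 : Ideal.absNorm a ≠ 0 := fun h => ha (Ideal.absNorm_eq_zero_iff.1 h)
      exact_mod_cast Nat.pos_of_ne_zero h2
    rw [norm_mul, Complex.norm_cpow_eq_rpow_re_of_pos h1, Complex.neg_re]

theorem CZR_sum (hVZS : VZS_stmt) (K : Type) [Field K] [NumberField K] (s : ℂ) (hs : 1 < s.re) :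
    Summable (fun a : Ideal (𝓞 K) => tc K a * (Nm a : ℂ) ^ (-s)) := by
  apply Summable.of_norm
  have h := hVZS K (tc K) s.re (by
    intro I
    by_cases hI : I = ⊥
    · rw [hI, CZR_bot]
      simp
    · rw [CZR_ne K I hI]
      simp) (CZR_bot K) hs
  refine h.congr fun a => ?_
  exact (CZR_norm K a s).symm

theorem CZR_fib (K : Type) [Field K] [NumberField K] (s : ℂ) (n : ℕ) :
    ∑' a : {a : Ideal (𝓞 K) // Ideal.absNorm a = n}, tc K (a : Ideal (𝓞 K)) * (Nm (a : Ideal (𝓞 K)) : ℂ) ^ (-s) =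
      LSeries.term (fun n => ((Nat.card {I : Ideal (𝓞 K) // Ideal.absNorm I = n} : ℕ) : ℂ)) s n := by
  by_cases hn : n = 0
  · subst hn
    rw [LSeries.term_zero]
    have h : ∀ a : {a : Ideal (𝓞 K) // Ideal.absNorm a = 0}, tc K (a : Ideal (𝓞 K)) * (Nm (a : Ideal (𝓞 K)) : ℂ) ^ (-s) = 0 := by
      intro a
      rw [Ideal.absNorm_eq_zero_iff.1 a.2, CZR_bot, zero_mul]
    rw [tsum_congr h, tsum_zero]
  · rw [LSeries.term_of_ne_zero hn]
    have h : ∀ a : {a : Ideal (𝓞 K) // Ideal.absNorm a = n}, tc K (a : Ideal (𝓞 K)) * (Nm (a : Ideal (𝓞 K)) : ℂ) ^ (-s) = (n : ℂ) ^ (-s) := by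
      intro a
      have ha : (a : Ideal (𝓞 K)) ≠ ⊥ := by
        intro h0
        apply hn
        rw [← a.2, h0, Ideal.absNorm_bot]
      rw [CZR_ne K _ ha, one_mul]
      unfold Nm
      rw [a.2]
      norm_cast
    rw [tsum_congr h, tsum_const, nsmul_eq_mul, Complex.cpow_neg, div_eq_mul_inv]

theorem CZR_tsum (hVZS : VZS_stmt) (K : Type) [Field K] [NumberField K] (s : ℂ) (hs : 1 < s.re) :
    ∑' a : Ideal (𝓞 K), tc K a * (Nm a : ℂ) ^ (-s) = dedekindZeta K s := by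
  have h1 := CZR_sum hVZS K s hs
  have e := Equiv.sigmaFiberEquiv (fun a : Ideal (𝓞 K) => Ideal.absNorm a)
  have h2 : Summable (fun x : (Σ n : ℕ, {a : Ideal (𝓞 K) // Ideal.absNorm a = n}) =>
      tc K (x.2 : Ideal (𝓞 K)) * (Nm (x.2 : Ideal (𝓞 K)) : ℂ) ^ (-s)) :=
    (Equiv.summable_iff (Equiv.sigmaFiberEquiv (fun a : Ideal (𝓞 K) => Ideal.absNorm a))
      (f := fun a : Ideal (𝓞 K) => tc K a * (Nm a : ℂ) ^ (-s))).2 h1
  have h3 : ∑' x : (Σ n : ℕ, {a : Ideal (𝓞 K) // Ideal.absNorm a = n}),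
      tc K (x.2 : Ideal (𝓞 K)) * (Nm (x.2 : Ideal (𝓞 K)) : ℂ) ^ (-s) =
      ∑' a : Ideal (𝓞 K), tc K a * (Nm a : ℂ) ^ (-s) :=
    Equiv.tsum_eq (Equiv.sigmaFiberEquiv (fun a : Ideal (𝓞 K) => Ideal.absNorm a))
      (fun a : Ideal (𝓞 K) => tc K a * (Nm a : ℂ) ^ (-s))
  rw [← h3, h2.tsum_sigma]
  unfold dedekindZeta LSeries
  exact tsum_congr fun n => CZR_fib K s n

theorem CZR (hVZS : VZS_stmt) : CZR_stmt := by
  intro K _ _ Z hZ
  refine ⟨?_, fun s hs => ⟨CZR_sum hVZS K s hs, CZR_tsum hVZS K s hs⟩⟩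
  have h1 := tendsto_sub_one_mul_dedekindZeta_nhdsGT K
  have h2 : Filter.Tendsto (fun s : ℝ => Z (s : ℂ)) (nhdsWithin 1 (Set.Ioi 1)) (nhds (Z 1)) := by
    have h3 : ContinuousAt (fun s : ℝ => Z (s : ℂ)) 1 :=
      (hZ.entire.continuous.comp Complex.continuous_ofReal).continuousAt
    have h4 : Filter.Tendsto (fun s : ℝ => Z (s : ℂ)) (nhds 1) (nhds (Z ((1 : ℝ) : ℂ))) := h3
    rw [Complex.ofReal_one] at h4
    exact h4.mono_left nhdsWithin_le_nhds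
  have h5 : ∀ᶠ s : ℝ in nhdsWithin 1 (Set.Ioi 1), Z (s : ℂ) = ((s : ℂ) - 1) * dedekindZeta K s := by
    refine eventually_nhdsWithin_of_forall fun s hs => ?_
    have hs' : 1 < (s : ℂ).re := by
      rw [Complex.ofReal_re]
      exact hs
    rw [hZ.series s hs', CZR_tsum hVZS K s hs']
  have h6 := h2.congr' h5
  exact tendsto_nhds_unique h6 h1

end Pool.Agent.UN
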